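import Mathlib
import Pool.Agent.Helper278.DefsG
import Pool.Agent.Helper278.CEStmt
import Pool.Agent.Helper436.SM.Stmt
import Pool.Agent.Helper436.SN.StmtG
import Pool.Agent.Helper159.GM.Stmt
import Pool.Agent.H289R2.RS.FINAL

set_option autoImplicit false

namespace Pool.Agent.Results.MP_c72427_an.Continuum

open Pool.Agent.Helper278 Pool.Agent.Helper436.SM Pool.Agent.Helper159.GM

universe w

/-- There are a hyperfinite II₁ factor `R` and a family `N t`, indexed by the real numbers `t`, of
separable II₁ factors with property Gamma, none of them McDuff, such that `N s` and `N t` are not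
elementarily equivalent for `s ≠ t`. -/
theorem result :
    ∃ (R : VNA) (N : ℝ → VNA), IsHyperfiniteII R.N R.τ ∧
      (∀ t, IsIIOneFactor (N t).N (N t).τ ∧ Pool.Agent.Helper436.SN.IsSeparable (N t).τ ∧
        HasGamma (N t).τ ∧ ¬ IsMcDuff R.N R.τ (N t).N (N t).τ) ∧
      ∀ s t, s ≠ t → ¬ ElemEquiv.{w} (N s).τ (N t).τ :=
  Pool.Agent.H289R2.RS.exists_continuum.{w}

end Pool.Agent.Results.MP_c72427_an.Continuum
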